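import Pool.Agent.H22.LeafProof

/-! The Graffiti.pc statement: `L(G) ≤ δ'(G) + 1` forces a Hamiltonian path. -/

namespace Pool.Agent.Results.MP_95a718_co.LeafTraceable

open Pool.Agent.H22.Leaf

/-- Every connected graph `G` on at least two vertices whose leaf number is at most one more than
its second smallest degree has a Hamiltonian path. -/
theorem result {V : Type*} [Fintype V] [DecidableEq V] (G : SimpleGraph V) (hG : G.Connected)
    (hcard : 2 ≤ Fintype.card V) (hL : leafNumber G ≤ secondSmallestDegree G + 1) :
    ∃ (a b : V) (q : G.Walk a b), q.IsHamiltonian := by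
  classical
  obtain ⟨u, hu⟩ := exists_exceptional G hcard
  obtain ⟨f, hf⟩ := main_ind (Fintype.card V) V G rfl hG (secondSmallestDegree G)
    (secondSmallest_pos hG hcard) u (fun v hv => by convert hu v hv) (hyp_of_leafNumber hG hL)
  exact hamiltonian_of_PF (by omega) hf

end Pool.Agent.Results.MP_95a718_co.LeafTraceable
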